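import Pool.Agent.Work.MP_db9399_ow.Interface

/-!
# MP_db9399, OWN, block SUBL (helper12): random sublists
-/

set_option autoImplicit false

namespace Pool.Agent.Work.MP_db9399_ow.helper12s

open Finset Classical
open Pool.Agent.Work.MP_db9399_all (nb mis pr DepOnI)
open Pool.Agent.Work.MP_db9399_en (ex ex_add ex_const_mul ex_sum ex_one ex_mono ex_nonneg chern_up
  card_pos)

universe u

section coord
variable {J : Type u} [Fintype J] {M : ℕ}

/-- expectation of a function of one coordinate -/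
theorem ex_coord (hM : 0 < M) (y : J) (φ : Fin M → ℝ) :
    ex (fun ω : J → Fin M => φ (ω y)) = (∑ a, φ a) / M := by
  set e := Equiv.funSplitAt y (Fin M) with he
  have h1 : ∑ ω : J → Fin M, φ (ω y) = ∑ p : Fin M × ({j // j ≠ y} → Fin M), φ p.1 :=
    Equiv.sum_comp e (fun p : Fin M × ({j // j ≠ y} → Fin M) => φ p.1)
  have h2 : ∑ p : Fin M × ({j // j ≠ y} → Fin M), φ p.1 =
      (Fintype.card ({j // j ≠ y} → Fin M) : ℝ) * ∑ a, φ a := by
    rw [Fintype.sum_prod_type]
    simp only [sum_const, card_univ, nsmul_eq_mul, ← mul_sum]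
  have h3 : (Fintype.card (J → Fin M) : ℝ) = M * (Fintype.card ({j // j ≠ y} → Fin M) : ℝ) := by
    rw [Fintype.card_congr e, Fintype.card_prod, Fintype.card_fin, Nat.cast_mul]
  have h4 : (0 : ℝ) < Fintype.card ({j // j ≠ y} → Fin M) := by
    have : Nonempty (Fin M) := ⟨⟨0, hM⟩⟩
    exact_mod_cast Fintype.card_pos
  have h5 : (0 : ℝ) < M := by exact_mod_cast hM
  unfold ex
  rw [h1, h2, h3]
  field_simp

theorem ex_inj (hM : 0 < M) {P : ℕ} (y : J) (e : Fin M → Fin P) (he : Function.Injective e)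
    (h : Fin P → ℝ) (h0 : ∀ b, 0 ≤ h b) :
    ex (fun ω : J → Fin M => h (e (ω y))) ≤ (∑ b, h b) / M := by
  rw [ex_coord hM y (fun a => h (e a))]
  refine div_le_div_of_nonneg_right ?_ (Nat.cast_nonneg _)
  rw [← sum_image (f := h) (g := e) (s := univ) (fun a _ b _ hab => he hab)]
  exact sum_le_sum_of_subset_of_nonneg (subset_univ _) fun b _ _ => h0 b

/-- probability, with the decidability instances of `chern_up` -/
noncomputable def prc (E : (J → Fin M) → Prop) : ℝ := pr E

end coord

section tail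
variable {V : Type u} [Fintype V] {P l lam : ℕ}

/-- the sum of a test over the random choices -/
noncomputable def Z (W : Finset V) (e : V → Fin lam → Fin P) (h : V → Fin P → ℝ)
    (f : V × Fin l → Fin lam) : ℝ :=
  ∑ y ∈ W ×ˢ (univ : Finset (Fin l)), h y.1 (e y.1 (f y))

theorem tail (hl : 0 < lam) (W : Finset V) (e : V → Fin lam → Fin P)
    (he : ∀ w ∈ W, Function.Injective (e w)) (h : V → Fin P → ℝ) (h0 : ∀ w b, 0 ≤ h w b)
    {B m s : ℝ} (hB : ∀ w b, h w b ≤ B) (hB0 : 0 < B) (hm0 : 0 < m)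
    (hm : (l : ℝ) / lam * ∑ w ∈ W, ∑ b, h w b ≤ m) (hs : 0 ≤ s) :
    prc (fun f : V × Fin l → Fin lam => m + s ≤ Z W e h f) ≤
      Real.exp (-(min (s ^ 2 / (4 * B * m)) (s / (2 * B)))) := by
  unfold Z prc
  refine chern_up hl (W ×ˢ (univ : Finset (Fin l))) (fun y => {y})
    (fun y f => h y.1 (e y.1 (f y))) ?_ ?_ (fun y _ f => h0 _ _) (fun y _ f => hB _ _) hB0 hm0 ?_ hs
  · intro y _ f f' hf
    have := hf y (mem_singleton_self y)
    simp only [this]
  · intro y _ y' _ hne
    exact disjoint_singleton.2 hne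
  · refine le_trans ?_ hm
    calc ∑ y ∈ W ×ˢ (univ : Finset (Fin l)), ex (fun f : V × Fin l → Fin lam =>
          h y.1 (e y.1 (f y))) ≤ ∑ y ∈ W ×ˢ (univ : Finset (Fin l)), (∑ b, h y.1 b) / lam := by
          refine sum_le_sum fun y hy => ?_
          exact ex_inj hl y (e y.1) (he y.1 (mem_product.1 hy).1) (h y.1) (h0 y.1)
      _ = (l : ℝ) / lam * ∑ w ∈ W, ∑ b, h w b := by
          rw [sum_product]
          simp only [sum_const, card_univ, Fintype.card_fin, nsmul_eq_mul]
          rw [mul_sum]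
          refine sum_congr rfl fun w _ => ?_
          ring

omit [Fintype V] in
theorem depZ (W Sc : Finset V) (e : V → Fin lam → Fin P) (h : V → Fin P → ℝ)
    (hSc : ∀ w ∈ W, w ∉ Sc → ∀ b, h w b = 0) (f f' : V × Fin l → Fin lam)
    (hff : ∀ y ∈ Sc ×ˢ (univ : Finset (Fin l)), f y = f' y) : Z W e h f = Z W e h f' := by
  unfold Z
  refine sum_congr rfl fun y hy => ?_
  by_cases hy' : y.1 ∈ Sc
  · rw [hff y (mem_product.2 ⟨hy', mem_univ _⟩)]
  · rw [hSc y.1 (mem_product.1 hy).1 hy', hSc y.1 (mem_product.1 hy).1 hy']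

end tail

/-! ### Numbers -/

theorem num_a {X Y : ℝ} (hX : 400 ≤ X) (hY : X ^ 3 ≤ Y) :
    Y / 4 ≤ min ((Y - 64) ^ 2 / (4 * 1 * 64)) ((Y - 64) / (2 * 1)) := by
  have h1 : (256 : ℝ) ≤ Y := by
    have : (400 : ℝ) ^ 3 ≤ X ^ 3 := pow_le_pow_left₀ (by norm_num) hX 3
    have h2 : (256 : ℝ) ≤ 400 ^ 3 := by norm_num
    linarith
  refine le_min ?_ ?_
  · rw [le_div_iff₀ (by norm_num)]
    nlinarith
  · rw [le_div_iff₀ (by norm_num)]
    linarith

theorem num_b {X d : ℝ} (C K : ℕ) (hX : 400 ≤ X) (hd : X ^ (K + C + 20) ≤ d) :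
    X ^ (C + 3) / 4 ≤ min ((1 / (4 * X) - 128 / X ^ 3) ^ 2 / (4 * (X ^ K / d) * (128 / X ^ 3)))
      ((1 / (4 * X) - 128 / X ^ 3) / (2 * (X ^ K / d))) := by
  have hX0 : 0 < X := by linarith
  have hd0 : 0 < d := lt_of_lt_of_le (by positivity) hd
  have h1 : 1 / (8 * X) ≤ 1 / (4 * X) - 128 / X ^ 3 := by
    rw [div_sub_div _ _ (by positivity) (by positivity),
      div_le_div_iff₀ (by positivity) (by positivity)]
    have : (400 : ℝ) ^ 2 ≤ X ^ 2 := pow_le_pow_left₀ (by norm_num) hX 2
    nlinarith [mul_pos hX0 (mul_pos hX0 hX0), sq_nonneg X, mul_nonneg hX0.le (sq_nonneg X)]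
  have h2 : 0 < 1 / (8 * X) := by positivity
  refine le_min ?_ ?_
  · have h3 : (1 / (8 * X)) ^ 2 ≤ (1 / (4 * X) - 128 / X ^ 3) ^ 2 := pow_le_pow_left₀ h2.le h1 2
    refine le_trans ?_ (div_le_div_of_nonneg_right h3 (by positivity))
    have h4 : (1 / (8 * X)) ^ 2 / (4 * (X ^ K / d) * (128 / X ^ 3)) =
        d * X / (32768 * X ^ K) := by
      field_simp
      norm_num
    rw [h4, div_le_div_iff₀ (by norm_num) (by positivity)]
    have h5 : X ^ (C + 3) * (32768 * X ^ K) ≤ X ^ (K + C + 20) * X := by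
      have e1 : X ^ (C + 3) * (32768 * X ^ K) = 32768 * (X ^ (C + 3 + K)) := by ring
      have e2 : X ^ (K + C + 20) * X = X ^ 18 * X ^ (C + 3 + K) := by ring
      rw [e1, e2]
      refine mul_le_mul_of_nonneg_right ?_ (by positivity)
      have : (400 : ℝ) ^ 18 ≤ X ^ 18 := pow_le_pow_left₀ (by norm_num) hX 18
      refine le_trans (by norm_num) this
    have h6 : X ^ (K + C + 20) * X ≤ d * X := mul_le_mul_of_nonneg_right hd hX0.le
    have h7 : d * X ≤ d * X * 4 := by nlinarith [mul_pos hd0 hX0]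
    linarith
  · refine le_trans ?_ (div_le_div_of_nonneg_right h1 (by positivity))
    have h4 : 1 / (8 * X) / (2 * (X ^ K / d)) = d / (16 * (X * X ^ K)) := by
      field_simp
      norm_num
    rw [h4, div_le_div_iff₀ (by norm_num) (by positivity)]
    have h5 : X ^ (C + 3) * (16 * (X * X ^ K)) ≤ X ^ (K + C + 20) := by
      have e1 : X ^ (C + 3) * (16 * (X * X ^ K)) = 16 * (X ^ (C + 4 + K)) := by ring
      have e2 : X ^ (K + C + 20) = X ^ 16 * X ^ (C + 4 + K) := by ring
      rw [e1, e2]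
      refine mul_le_mul_of_nonneg_right ?_ (by positivity)
      have : (400 : ℝ) ^ 16 ≤ X ^ 16 := pow_le_pow_left₀ (by norm_num) hX 16
      refine le_trans (by norm_num) this
    linarith

theorem num_c {X Y Z : ℝ} (hX : 400 ≤ X) (hY : Y ≤ Z) (hZ : 0 < Z) :
    Y / 4 ≤ min ((X ^ 4 * Z - 64 * Z) ^ 2 / (4 * 1 * (64 * Z)))
      ((X ^ 4 * Z - 64 * Z) / (2 * 1)) := by
  have h1 : (400 : ℝ) ^ 4 ≤ X ^ 4 := pow_le_pow_left₀ (by norm_num) hX 4
  have h2 : 1000 * Z ≤ X ^ 4 * Z - 64 * Z := by nlinarith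
  refine le_min ?_ ?_
  · have h3 : (1000 * Z) ^ 2 ≤ (X ^ 4 * Z - 64 * Z) ^ 2 := pow_le_pow_left₀ (by positivity) h2 2
    rw [le_div_iff₀ (by positivity)]
    nlinarith [mul_pos hZ hZ]
  · rw [le_div_iff₀ (by norm_num)]
    linarith

theorem stmt_SUBL (hSYM : Stmt_SYM.{u}) : Stmt_SUBL.{u} := by
  intro C K K1
  refine ⟨C + K + 2 * K1 + 8, K + C + 20, 400 + 32 * (C + 4).factorial + (K + 1).factorial, ?_⟩
  intro V _ G d x P J R _ _ S g Q U L hx hlog hxd hP2 hP0 hdeg hNU hL hgS hgK hSc hSm hgU hQ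
  -- real numbers
  set X : ℝ := (x : ℝ) with hXdef
  have hX400 : (400 : ℝ) ≤ X := by
    have : 400 ≤ x := by omega
    rw [hXdef]
    exact_mod_cast this
  have hX0 : 0 < X := by linarith
  have hX1 : 1 ≤ X := by linarith
  have hfac1 : (32 * (C + 4).factorial : ℝ) ≤ X := by
    have : 32 * (C + 4).factorial ≤ x := by omega
    rw [hXdef]
    exact_mod_cast this
  have hfac2 : ((K + 1).factorial : ℝ) ≤ X := by
    have : (K + 1).factorial ≤ x := by omega
    rw [hXdef]
    exact_mod_cast this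
  have hdX : X ^ (K + C + 20) ≤ (d : ℝ) := by rw [hXdef]; exact_mod_cast hxd
  have hd0 : (0 : ℝ) < d := lt_of_lt_of_le (by positivity) hdX
  set E : ℝ := Real.exp (X ^ (C + 1)) with hE
  have hXC1 : X ≤ X ^ (C + 1) := le_self_pow₀ hX1 (by omega)
  have hXC0 : X ^ C ≤ X ^ (C + 1) := pow_le_pow_right₀ hX1 (by omega)
  have hexpX : Real.exp X ≤ E := Real.exp_le_exp.2 hXC1
  have hE1 : 1 ≤ E := Real.one_le_exp (by positivity)
  have hE336 : 336 ≤ E := by
    have := Real.add_one_le_exp X
    linarith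
  have hdE : (d : ℝ) ≤ E := ((Real.log_le_iff_le_exp hd0).1 hlog).trans hexpX
  have hCE : Real.exp (X ^ C) ≤ E := Real.exp_le_exp.2 hXC0
  have hKE : X ^ K ≤ E := by
    have h1 := Real.pow_div_factorial_le_exp X hX0.le (K + 1)
    have hf : (0 : ℝ) < (K + 1).factorial := by positivity
    rw [div_le_iff₀ hf] at h1
    have h2 : X ^ K * X ≤ Real.exp X * X := by
      calc X ^ K * X = X ^ (K + 1) := by ring
        _ ≤ Real.exp X * (K + 1).factorial := h1
        _ ≤ Real.exp X * X := mul_le_mul_of_nonneg_left hfac2 (Real.exp_pos _).le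
    exact (le_of_mul_le_mul_right h2 hX0).trans hexpX
  have hlE : 32 * X ^ (C + 3) ≤ E := by
    have h1 := Real.pow_div_factorial_le_exp X hX0.le (C + 4)
    have hf : (0 : ℝ) < (C + 4).factorial := by positivity
    rw [div_le_iff₀ hf] at h1
    have h2 : 32 * X ^ (C + 3) * X ≤ Real.exp X * X := by
      calc 32 * X ^ (C + 3) * X = 32 * X ^ (C + 4) := by ring
        _ ≤ 32 * (Real.exp X * (C + 4).factorial) := by linarith
        _ = Real.exp X * (32 * (C + 4).factorial) := by ring
        _ ≤ Real.exp X * X := mul_le_mul_of_nonneg_left hfac1 (Real.exp_pos _).le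
    exact (le_of_mul_le_mul_right h2 hX0).trans hexpX
  set l : ℕ := 32 * x ^ (C + 3) with hl
  have hlr : (l : ℝ) = 32 * X ^ (C + 3) := by rw [hl]; push_cast; rfl
  -- the sublists
  set lam : ℕ := ⌈(d : ℝ) / (2 * X ^ (2 * K1 + 1))⌉₊ with hlam
  have hlam0 : 0 < lam := Nat.ceil_pos.2 (by positivity)
  have hlam1 : (d : ℝ) / (2 * X ^ (2 * K1 + 1)) ≤ lam := Nat.le_ceil _
  have hlamr : (0 : ℝ) < lam := by exact_mod_cast hlam0
  have hinj : ∀ v ∈ U, ∃ e : Fin lam → Fin P, Function.Injective e ∧ ∀ a, e a ∈ L v := by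
    intro v hv
    have h1 : lam ≤ (L v).card := Nat.ceil_le.2 (hL v hv)
    have h2 : Fintype.card (Fin lam) ≤ Fintype.card (L v) := by simpa using h1
    obtain ⟨e⟩ := Function.Embedding.nonempty_of_card_le h2
    exact ⟨fun a => (e a : Fin P), fun a b hab => e.injective (Subtype.ext hab),
      fun a => (e a).2⟩
  set e : V → Fin lam → Fin P := fun v =>
    if h : v ∈ U then (hinj v h).choose else fun _ => ⟨0, hP0⟩ with he
  have heinj : ∀ v ∈ U, Function.Injective (e v) := by
    intro v hv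
    rw [he]
    simp only [hv, dif_pos]
    exact (hinj v hv).choose_spec.1
  have heL : ∀ v ∈ U, ∀ a, e v a ∈ L v := by
    intro v hv
    rw [he]
    simp only [hv, dif_pos]
    exact (hinj v hv).choose_spec.2
  have hρ : (l : ℝ) / lam ≤ 64 * X ^ (C + 2 * K1 + 4) / d := by
    rw [hlr, div_le_div_iff₀ hlamr hd0]
    rw [div_le_iff₀ (by positivity)] at hlam1
    calc 32 * X ^ (C + 3) * (d : ℝ) ≤ 32 * X ^ (C + 3) * (lam * (2 * X ^ (2 * K1 + 1))) :=
          mul_le_mul_of_nonneg_left hlam1 (by positivity)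
      _ = 64 * X ^ (C + 2 * K1 + 4) * lam := by ring
  have hρ0 : 0 ≤ (l : ℝ) / lam := by positivity
  -- the events
  set κ : Type u := (V × Fin P) ⊕ (J ⊕ R) with hκ
  set W : κ → Finset V := Sum.elim (fun p => nb G p.1 ∩ U) (fun _ => U) with hW
  set h : κ → V → Fin P → ℝ := Sum.elim (fun p _ b => if b = p.2 then 1 else 0)
    (Sum.elim (fun j w b => |g j b w|) (fun q w b => if (b, w) ∈ Q q then 1 else 0)) with hh
  set θ : κ → ℝ := Sum.elim (fun _ => X ^ (C + 3))
    (Sum.elim (fun _ => 1 / (4 * X)) (fun _ => X ^ (C + K + 2 * K1 + 8))) with hθ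
  set Sc : κ → Finset V := Sum.elim (fun p => nb G p.1 ∩ U)
    (Sum.elim (fun j => S j) (fun q => univ.filter fun w => ∃ b, (b, w) ∈ Q q)) with hScdef
  have hQcard : ∀ q, (univ.filter fun w => ∃ b, (b, w) ∈ Q q).card ≤ (Q q).card := by
    intro q
    refine (card_le_card (t := (Q q).image Prod.snd) ?_).trans card_image_le
    intro w hw
    obtain ⟨b, hb⟩ := (mem_filter.1 hw).2
    exact mem_image.2 ⟨(b, w), hb, rfl⟩
  have key : ∃ f : V × Fin l → Fin lam, ∀ k, ¬ (θ k ≤ Z (W k) e (h k) f) := by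
    refine hSYM (V × Fin l) lam κ (fun k => Sc k ×ˢ (univ : Finset (Fin l)))
      (fun k f => θ k ≤ Z (W k) e (h k) f) (Real.exp (-(X ^ (C + 3) / 4))) (2 * E ^ 3)
      (6 * E ^ 2) hlam0 (by positivity) (by positivity) ?_ ?_ ?_ (Real.exp_pos _).le ?_ ?_
    · -- scopes
      intro k f f' hff
      have h1 : Z (W k) e (h k) f = Z (W k) e (h k) f' := by
        refine depZ (W k) (Sc k) e (h k) ?_ f f' hff
        intro w hw hw' b
        rcases k with ⟨v, b'⟩ | j | q
        · exact absurd hw hw'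
        · simp only [hh, Sum.elim_inr, Sum.elim_inl, abs_eq_zero]
          exact hgS j b w hw'
        · simp only [hh, Sum.elim_inr]
          rw [if_neg]
          intro hb
          exact hw' (mem_filter.2 ⟨mem_univ _, b, hb⟩)
      simp only [h1]
    · -- sizes of the scopes
      intro k
      rw [card_product, card_univ, Fintype.card_fin, Nat.cast_mul, hlr]
      have hE2 : 0 ≤ E := by linarith
      rcases k with ⟨v, b'⟩ | j | q
      · have h1 : ((nb G v ∩ U).card : ℝ) ≤ 2 * E := by
          have h2 : (nb G v ∩ U).card ≤ 2 * d := (card_le_card inter_subset_left).trans (hdeg v)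
          have h3 : ((nb G v ∩ U).card : ℝ) ≤ 2 * d := by exact_mod_cast h2
          linarith
        calc ((Sc (Sum.inl (v, b'))).card : ℝ) * (32 * X ^ (C + 3)) ≤ (2 * E) * E :=
              mul_le_mul h1 hlE (by positivity) (by positivity)
          _ ≤ 2 * E ^ 3 := by nlinarith [mul_nonneg hE2 hE2]
      · calc ((Sc (Sum.inr (Sum.inl j))).card : ℝ) * (32 * X ^ (C + 3)) ≤ E * E :=
              mul_le_mul ((hSc j).trans hCE) hlE (by positivity) (by positivity)
          _ ≤ 2 * E ^ 3 := by nlinarith [mul_nonneg hE2 hE2]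
      · have h1 : ((univ.filter fun w => ∃ b, (b, w) ∈ Q q).card : ℝ) ≤ E * E := by
          have h2 : ((univ.filter fun w => ∃ b, (b, w) ∈ Q q).card : ℝ) ≤ (Q q).card := by
            exact_mod_cast hQcard q
          exact (h2.trans (hQ.card q)).trans (mul_le_mul hdE hKE (by positivity) (by positivity))
        calc ((Sc (Sum.inr (Sum.inr q))).card : ℝ) * (32 * X ^ (C + 3)) ≤ (E * E) * E :=
              mul_le_mul h1 hlE (by positivity) (by positivity)
          _ ≤ 2 * E ^ 3 := by nlinarith [mul_nonneg hE2 (mul_nonneg hE2 hE2)]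
    · -- number of scopes through a coordinate
      intro y
      refine le_trans (le_of_eq (b := ∑ k : κ, if y.1 ∈ Sc k then (1 : ℝ) else 0) ?_) ?_
      · rw [sum_boole]
        congr 2
        ext k
        simp [mem_product]
      rw [Fintype.sum_sum_type, Fintype.sum_sum_type, sum_boole, sum_boole, sum_boole]
      have h2 : ((univ.filter fun p : V × Fin P => y.1 ∈ Sc (Sum.inl p)).card : ℝ) ≤
          4 * (d : ℝ) ^ 2 := by
        have h3 : (univ.filter fun p : V × Fin P => y.1 ∈ Sc (Sum.inl p)).card ≤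
            (nb G y.1 ×ˢ (univ : Finset (Fin P))).card := by
          refine card_le_card fun p hp => ?_
          have h4 : y.1 ∈ nb G p.1 ∩ U := (mem_filter.1 hp).2
          have h5 : G.Adj p.1 y.1 := by
            have := (mem_inter.1 h4).1
            simpa [nb] using this
          refine mem_product.2 ⟨?_, mem_univ _⟩
          simpa [nb] using h5.symm
        rw [card_product, card_univ, Fintype.card_fin] at h3
        have h6 : (nb G y.1).card * P ≤ (2 * d) * (2 * d) := Nat.mul_le_mul (hdeg _) hP2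
        have h7 : ((univ.filter fun p : V × Fin P => y.1 ∈ Sc (Sum.inl p)).card : ℝ) ≤
            ((2 * d) * (2 * d) : ℕ) := by exact_mod_cast h3.trans h6
        push_cast at h7
        linarith
      have h3 := hSm y.1
      have h4 : ((univ.filter fun q : R => y.1 ∈ Sc (Sum.inr (Sum.inr q))).card : ℝ) ≤
          Real.exp (X ^ C) := by
        refine le_trans (le_of_eq ?_) (hQ.mul y.1)
        congr 2
        ext q
        simp [hScdef]
      have h5 : (d : ℝ) ^ 2 ≤ E ^ 2 := pow_le_pow_left₀ hd0.le hdE 2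
      have h6 : E ≤ E ^ 2 := by nlinarith
      have h7 : ((univ.filter fun j : J => y.1 ∈ Sc (Sum.inr (Sum.inl j))).card : ℝ) ≤
          Real.exp (X ^ C) := h3
      linarith
    · -- probabilities
      intro k
      rcases k with ⟨v, b'⟩ | j | q
      · have h1 := tail (l := l) hlam0 (nb G v ∩ U) e (fun w hw => heinj w (mem_inter.1 hw).2)
          (h (Sum.inl (v, b'))) (fun w b => by simp only [hh, Sum.elim_inl]; split_ifs <;> norm_num)
          (B := 1) (m := 64) (s := X ^ (C + 3) - 64)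
          (fun w b => by simp only [hh, Sum.elim_inl]; split_ifs <;> norm_num) one_pos
          (by norm_num) ?_ ?_
        · have h2 := num_a hX400 (Y := X ^ (C + 3)) (pow_le_pow_right₀ hX1 (by omega))
          have h3 : (64 : ℝ) + (X ^ (C + 3) - 64) = X ^ (C + 3) := by ring
          rw [h3] at h1
          exact h1.trans (Real.exp_le_exp.2 (neg_le_neg h2))
        · have h2 : ∑ w ∈ nb G v ∩ U, ∑ b, h (Sum.inl (v, b')) w b = ((nb G v ∩ U).card : ℝ) := by
            simp [hh]
          rw [h2]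
          calc (l : ℝ) / lam * ((nb G v ∩ U).card : ℝ) ≤
                (64 * X ^ (C + 2 * K1 + 4) / d) * (d / X ^ (C + 2 * K1 + 7)) :=
                mul_le_mul hρ (hNU v) (by positivity) (by positivity)
            _ = 64 / X ^ 3 := by
                have : X ^ (C + 2 * K1 + 7) = X ^ (C + 2 * K1 + 4) * X ^ 3 := by ring
                rw [this]
                field_simp
            _ ≤ 64 := by
                rw [div_le_iff₀ (by positivity)]
                have : (1 : ℝ) ≤ X ^ 3 := one_le_pow₀ hX1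
                linarith
        · have : (400 : ℝ) ^ 3 ≤ X ^ (C + 3) :=
            (pow_le_pow_left₀ (by norm_num) hX400 3).trans (pow_le_pow_right₀ hX1 (by omega))
          have h3 : (64 : ℝ) ≤ 400 ^ 3 := by norm_num
          linarith
      · have h128 : 128 / X ^ 3 ≤ 1 / (4 * X) := by
          rw [div_le_div_iff₀ (by positivity) (by positivity)]
          have : (400 : ℝ) ^ 2 ≤ X ^ 2 := pow_le_pow_left₀ (by norm_num) hX400 2
          nlinarith [mul_pos hX0 (mul_pos hX0 hX0)]
        have h1 := tail (l := l) hlam0 U e (fun w hw => heinj w hw)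
          (h (Sum.inr (Sum.inl j))) (fun w b => by simp only [hh, Sum.elim_inl, Sum.elim_inr]; positivity)
          (B := X ^ K / d) (m := 128 / X ^ 3) (s := 1 / (4 * X) - 128 / X ^ 3)
          (fun w b => hgK j b w) (by positivity) (by positivity) ?_ (by linarith)
        · have h2 := num_b C K hX400 hdX
          have h3 : 128 / X ^ 3 + (1 / (4 * X) - 128 / X ^ 3) = 1 / (4 * X) := by ring
          rw [h3] at h1
          exact h1.trans (Real.exp_le_exp.2 (neg_le_neg h2))
        · have h2 : ∑ w ∈ U, ∑ b, h (Sum.inr (Sum.inl j)) w b ≤ 2 * d / X ^ (C + 2 * K1 + 7) := by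
            simp only [hh, Sum.elim_inl, Sum.elim_inr]
            rw [sum_comm]
            calc ∑ b, ∑ w ∈ U, |g j b w| ≤ ∑ _b : Fin P, 1 / X ^ (C + 2 * K1 + 7) :=
                  sum_le_sum fun b _ => hgU j b
              _ = P / X ^ (C + 2 * K1 + 7) := by
                  rw [sum_const, card_univ, Fintype.card_fin, nsmul_eq_mul]; ring
              _ ≤ 2 * d / X ^ (C + 2 * K1 + 7) := by
                  refine div_le_div_of_nonneg_right ?_ (by positivity)
                  exact_mod_cast hP2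
          have h20 : 0 ≤ ∑ w ∈ U, ∑ b, h (Sum.inr (Sum.inl j)) w b := by
            simp only [hh, Sum.elim_inl, Sum.elim_inr]
            positivity
          calc (l : ℝ) / lam * ∑ w ∈ U, ∑ b, h (Sum.inr (Sum.inl j)) w b ≤
                (64 * X ^ (C + 2 * K1 + 4) / d) * (2 * d / X ^ (C + 2 * K1 + 7)) :=
                mul_le_mul hρ h2 h20 (by positivity)
            _ = 128 / X ^ 3 := by
                have : X ^ (C + 2 * K1 + 7) = X ^ (C + 2 * K1 + 4) * X ^ 3 := by ring
                rw [this]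
                field_simp
                norm_num
      · set Zc : ℝ := X ^ (C + 2 * K1 + 4 + K) with hZc
        have hZc0 : 0 < Zc := by positivity
        have hXZ : X ^ (C + K + 2 * K1 + 8) = X ^ 4 * Zc := by rw [hZc]; ring
        have h4 : (400 : ℝ) ^ 4 ≤ X ^ 4 := pow_le_pow_left₀ (by norm_num) hX400 4
        have h1 := tail (l := l) hlam0 U e (fun w hw => heinj w hw)
          (h (Sum.inr (Sum.inr q))) (fun w b => by simp only [hh, Sum.elim_inr]; split_ifs <;> norm_num)
          (B := 1) (m := 64 * Zc) (s := X ^ 4 * Zc - 64 * Zc)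
          (fun w b => by simp only [hh, Sum.elim_inr]; split_ifs <;> norm_num) one_pos
          (by positivity) ?_ (by nlinarith)
        · have h2 := num_c hX400 (Y := X ^ (C + 3)) (Z := Zc)
            (pow_le_pow_right₀ hX1 (by omega)) hZc0
          have h3 : 64 * Zc + (X ^ 4 * Zc - 64 * Zc) = X ^ (C + K + 2 * K1 + 8) := by
            rw [hXZ]; ring
          rw [h3] at h1
          exact h1.trans (Real.exp_le_exp.2 (neg_le_neg h2))
        · have h2 : ∑ w ∈ U, ∑ b, h (Sum.inr (Sum.inr q)) w b ≤ d * X ^ K := by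
            refine le_trans ?_ (hQ.card q)
            simp only [hh, Sum.elim_inr]
            have h5 : ∀ w ∈ U, ∑ b : Fin P, (if (b, w) ∈ Q q then (1 : ℝ) else 0) =
                (((Q q).filter fun y => y.2 = w).card : ℝ) := by
              intro w _
              rw [sum_boole]
              congr 1
              refine card_bij (fun b _ => (b, w)) ?_ ?_ ?_
              · intro b hb
                exact mem_filter.2 ⟨(mem_filter.1 hb).2, rfl⟩
              · intro b _ b'' _ hbb
                exact (Prod.mk.inj hbb).1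
              · rintro ⟨b, w'⟩ hy
                obtain ⟨h6, h7⟩ := mem_filter.1 hy
                simp only at h7
                subst h7
                exact ⟨b, mem_filter.2 ⟨mem_univ _, h6⟩, rfl⟩
            rw [sum_congr rfl h5, ← Nat.cast_sum]
            have h6 : ∑ w ∈ U, ((Q q).filter fun y => y.2 = w).card ≤ (Q q).card := by
              rw [← card_biUnion]
              · exact card_le_card (biUnion_subset.2 fun w _ => filter_subset _ _)
              · intro w _ w' _ hne
                refine Finset.disjoint_left.2 fun y h1 h2 => ?_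
                exact hne ((mem_filter.1 h1).2.symm.trans (mem_filter.1 h2).2)
            exact_mod_cast h6
          have h20 : 0 ≤ ∑ w ∈ U, ∑ b, h (Sum.inr (Sum.inr q)) w b := by
            simp only [hh, Sum.elim_inr]
            positivity
          calc (l : ℝ) / lam * ∑ w ∈ U, ∑ b, h (Sum.inr (Sum.inr q)) w b ≤
                (64 * X ^ (C + 2 * K1 + 4) / d) * (d * X ^ K) :=
                mul_le_mul hρ h2 h20 (by positivity)
            _ = 64 * Zc := by
                rw [hZc, pow_add X (C + 2 * K1 + 4) K]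
                field_simp
    · -- the condition
      have h1 : 2 * E ^ 3 + 1 ≤ 3 * E ^ 3 := by
        have : 1 ≤ E ^ 3 := one_le_pow₀ hE1
        linarith
      have h2 : 6 * E ^ 2 + 1 ≤ 7 * E ^ 2 := by
        have : 1 ≤ E ^ 2 := one_le_pow₀ hE1
        linarith
      have h3 : (2 * E ^ 3 + 1) * (6 * E ^ 2 + 1) ≤ (3 * E ^ 3) * (7 * E ^ 2) :=
        mul_le_mul h1 h2 (by positivity) (by positivity)
      have h4 : 16 * ((3 * E ^ 3) * (7 * E ^ 2)) ≤ E ^ 6 := by
        have : 336 * E ^ 5 ≤ E * E ^ 5 := mul_le_mul_of_nonneg_right hE336 (by positivity)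
        calc 16 * ((3 * E ^ 3) * (7 * E ^ 2)) = 336 * E ^ 5 := by ring
          _ ≤ E * E ^ 5 := this
          _ = E ^ 6 := by ring
      have h5 : E ^ 6 = Real.exp (6 * X ^ (C + 1)) := by
        rw [hE, ← Real.exp_nat_mul]
        norm_num
      have h6 : 6 * X ^ (C + 1) ≤ X ^ (C + 3) / 4 := by
        have e1 : X ^ (C + 3) = X ^ 2 * X ^ (C + 1) := by ring
        have e2 : (400 : ℝ) ^ 2 ≤ X ^ 2 := pow_le_pow_left₀ (by norm_num) hX400 2
        rw [e1]
        have e3 : 0 < X ^ (C + 1) := by positivity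
        nlinarith
      calc 16 * Real.exp (-(X ^ (C + 3) / 4)) * (2 * E ^ 3 + 1) * (6 * E ^ 2 + 1) =
            Real.exp (-(X ^ (C + 3) / 4)) * (16 * ((2 * E ^ 3 + 1) * (6 * E ^ 2 + 1))) := by ring
        _ ≤ Real.exp (-(X ^ (C + 3) / 4)) * E ^ 6 := by
            refine mul_le_mul_of_nonneg_left ?_ (Real.exp_pos _).le
            linarith
        _ = Real.exp (-(X ^ (C + 3) / 4) + 6 * X ^ (C + 1)) := by rw [h5, ← Real.exp_add]
        _ ≤ 1 := by
            rw [Real.exp_le_one_iff]
            linarith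
  obtain ⟨f, hf⟩ := key
  refine ⟨fun v i => e v (f (v, i)), fun v hv i => heL v hv _, ?_, ?_, ?_⟩
  · intro v _ b
    have h1 := hf (Sum.inl (v, b))
    rw [not_le] at h1
    have h2 : Z (W (Sum.inl (v, b))) e (h (Sum.inl (v, b))) f =
        ((((nb G v ∩ U) ×ˢ (univ : Finset (Fin l))).filter
          (fun y => e y.1 (f (y.1, y.2)) = b)).card : ℝ) := by
      simp only [Z, hW, hh, Sum.elim_inl]
      rw [sum_boole]
    rw [h2] at h1
    have h3 : ((((nb G v ∩ U) ×ˢ (univ : Finset (Fin l))).filter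
          (fun y => e y.1 (f (y.1, y.2)) = b)).card : ℝ) ≤ ((x ^ (C + 3) : ℕ) : ℝ) := by
      push_cast
      exact h1.le
    exact_mod_cast h3
  · intro j
    have h1 := hf (Sum.inr (Sum.inl j))
    rw [not_le] at h1
    have h2 : Z (W (Sum.inr (Sum.inl j))) e (h (Sum.inr (Sum.inl j))) f =
        ∑ v ∈ U, ∑ i, |g j (e v (f (v, i))) v| := by
      simp only [Z, hW, hh, Sum.elim_inr, Sum.elim_inl]
      rw [sum_product]
    rw [h2] at h1
    exact h1.le
  · intro q
    have h1 := hf (Sum.inr (Sum.inr q))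
    rw [not_le] at h1
    have h2 : Z (W (Sum.inr (Sum.inr q))) e (h (Sum.inr (Sum.inr q))) f =
        (((U ×ˢ (univ : Finset (Fin l))).filter
          (fun y => (e y.1 (f (y.1, y.2)), y.1) ∈ Q q)).card : ℝ) := by
      simp only [Z, hW, hh, Sum.elim_inr]
      rw [sum_boole]
    rw [h2] at h1
    exact h1.le

end Pool.Agent.Work.MP_db9399_ow.helper12s
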