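import Pool.Agent.Work.MP_db9399_ow.Interface

/-!
# MP_db9399, OWN, block VAR (helper12)
-/

set_option autoImplicit false

namespace Pool.Agent.Work.MP_db9399_ow.helper12

open Finset Classical
open Pool.Agent.Work.MP_db9399_all (nb mis pr DepOnI)
open Pool.Agent.Work.MP_db9399_en (ex ex_add ex_const_mul ex_sum ex_one ex_mono ex_nonneg)

universe u

section
variable {V : Type u} [Fintype V] {P M : ℕ}

theorem mem_nb' (G : SimpleGraph V) (v w : V) : w ∈ nb G v ↔ G.Adj v w := by simp [nb]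

theorem mem_loc {G : SimpleGraph V} {U : Finset V} {T : ℕ} {ω : Fin P × V → Fin M} {b : Fin P}
    {v : V} : v ∈ loc G U T ω b ↔
      v ∈ U ∧ (ω (b, v) : ℕ) < T ∧ ∀ w ∈ nb G v ∩ U, (ω (b, v) : ℕ) < ω (b, w) := by
  simp [loc]

theorem loc_sub (G : SimpleGraph V) (U : Finset V) (T : ℕ) (ω : Fin P × V → Fin M) (b : Fin P) :
    loc G U T ω b ⊆ U := fun _ hv => (mem_loc.1 hv).1

/-- indicator of a local minimum -/
noncomputable def X (G : SimpleGraph V) (U : Finset V) (T : ℕ) (b : Fin P) (v : V)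
    (ω : Fin P × V → Fin M) : ℝ := if v ∈ loc G U T ω b then 1 else 0

/-- covariance -/
noncomputable def cv (M : ℕ) (G : SimpleGraph V) (U : Finset V) (T : ℕ) (b : Fin P) (v w : V) : ℝ :=
  ex (fun ω : Fin P × V → Fin M => (X G U T b v ω - Pv G U M T v) * (X G U T b w ω - Pv G U M T w))

theorem cv_comm (G : SimpleGraph V) (U : Finset V) (T : ℕ) (b : Fin P) (v w : V) :
    cv M G U T b v w = cv M G U T b w v := by
  unfold cv
  congr 1
  funext ω
  ring

theorem cv_eq (hM : 0 < M) (G : SimpleGraph V) (U : Finset V) (T : ℕ) (b : Fin P) (v w : V)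
    (hv : ex (fun ω : Fin P × V → Fin M => X G U T b v ω) = Pv G U M T v)
    (hw : ex (fun ω : Fin P × V → Fin M => X G U T b w ω) = Pv G U M T w) :
    cv M G U T b v w = ex (fun ω : Fin P × V → Fin M => X G U T b v ω * X G U T b w ω) -
      Pv G U M T v * Pv G U M T w := by
  have h1 : (fun ω : Fin P × V → Fin M =>
      (X G U T b v ω - Pv G U M T v) * (X G U T b w ω - Pv G U M T w)) =
      fun ω => (X G U T b v ω * X G U T b w ω + (-Pv G U M T w) * X G U T b v ω) +
        ((-Pv G U M T v) * X G U T b w ω + (Pv G U M T v * Pv G U M T w) * 1) := by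
    funext ω; ring
  unfold cv
  rw [h1, ex_add, ex_add, ex_add, ex_const_mul, ex_const_mul, ex_const_mul, ex_one hM, hv, hw]
  ring

theorem X_sq (G : SimpleGraph V) (U : Finset V) (T : ℕ) (b : Fin P) (v : V)
    (ω : Fin P × V → Fin M) : X G U T b v ω * X G U T b v ω = X G U T b v ω := by
  unfold X; split_ifs <;> simp

theorem X_adj (G : SimpleGraph V) (U : Finset V) (T : ℕ) (b : Fin P) (v w : V) (h : G.Adj v w)
    (ω : Fin P × V → Fin M) : X G U T b v ω * X G U T b w ω = 0 := by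
  unfold X
  by_cases h1 : v ∈ loc G U T ω b
  · by_cases h2 : w ∈ loc G U T ω b
    · exfalso
      obtain ⟨hv, -, h1⟩ := mem_loc.1 h1
      obtain ⟨hw, -, h2⟩ := mem_loc.1 h2
      have h3 := h1 w (mem_inter.2 ⟨(mem_nb' G v w).2 h, hw⟩)
      have h4 := h2 v (mem_inter.2 ⟨(mem_nb' G w v).2 h.symm, hv⟩)
      omega
    · simp [h2]
  · simp [h1]

theorem X_mul (G : SimpleGraph V) (U : Finset V) (T : ℕ) (b : Fin P) (v w : V)
    (ω : Fin P × V → Fin M) : X G U T b v ω * X G U T b w ω =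
      if v ∈ loc G U T ω b ∧ w ∈ loc G U T ω b then (1 : ℝ) else 0 := by
  unfold X
  by_cases h1 : v ∈ loc G U T ω b <;> by_cases h2 : w ∈ loc G U T ω b <;> simp [h1, h2]

/-- pairs with a common neighbour -/
theorem sum_common (G : SimpleGraph V) (U : Finset V) (D : ℕ)
    (hD : ∀ v, (nb G v ∩ U).card + 1 ≤ D) (v : V) :
    ∑ w ∈ U, (nb G v ∩ nb G w ∩ U).card ≤ D * D := by
  have h1 : ∑ w ∈ U, (nb G v ∩ nb G w ∩ U).card = ∑ z ∈ nb G v ∩ U, (nb G z ∩ U).card := by
    have e1 : ∀ w ∈ U, (nb G v ∩ nb G w ∩ U).card =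
        ∑ z ∈ nb G v ∩ U, if G.Adj z w then 1 else 0 := by
      intro w _
      rw [← card_filter]
      congr 1
      ext z
      simp only [mem_inter, mem_nb', mem_filter]
      constructor
      · rintro ⟨⟨h1, h2⟩, h3⟩; exact ⟨⟨h1, h3⟩, h2.symm⟩
      · rintro ⟨⟨h1, h3⟩, h2⟩; exact ⟨⟨h1, h2.symm⟩, h3⟩
    have e2 : ∀ z ∈ nb G v ∩ U, (nb G z ∩ U).card = ∑ w ∈ U, if G.Adj z w then 1 else 0 := by
      intro z _
      rw [← card_filter]
      congr 1
      ext w
      simp only [mem_inter, mem_nb', mem_filter]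
      tauto
    rw [sum_congr rfl e1, sum_congr rfl e2, sum_comm]
  rw [h1]
  calc ∑ z ∈ nb G v ∩ U, (nb G z ∩ U).card ≤ ∑ _z ∈ nb G v ∩ U, D :=
        sum_le_sum fun z _ => by have := hD z; omega
    _ = (nb G v ∩ U).card * D := by rw [sum_const, smul_eq_mul]
    _ ≤ D * D := Nat.mul_le_mul_right _ (by have := hD v; omega)

end

theorem stmt_VAR (hLOCP : Stmt_LOCP.{u}) (hLOC2 : Stmt_LOC2.{u}) (hCOVB : Stmt_COVB)
    (hPNB : Stmt_PNB) : Stmt_VAR.{u} := by
  intro V _ P D N1 G U b g hD hN1 hN1D hdeg hlow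
  set M := D * N1 with hM
  set T := N1 ^ 2 with hT
  have hM0 : 0 < M := by rw [hM]; positivity
  have hTM : T + 1 ≤ M := by
    rw [hT, hM]
    nlinarith
  have hTM' : T ≤ M := by omega
  have hDr : (4 : ℝ) ≤ D := by exact_mod_cast hD
  have hD0 : (0 : ℝ) < D := by linarith
  -- the probabilities
  have hp : ∀ v ∈ U, ex (fun ω : Fin P × V → Fin M => X G U T b v ω) = Pv G U M T v := by
    intro v hv
    exact hLOCP P M T G U b v hM0 hTM' hv
  have hp0 : ∀ v, 0 ≤ Pv G U M T v := fun v => (hPNB M T _ hM0 hTM).2.2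
  have hp1 : ∀ v ∈ U, Pv G U M T v ≤ 4 / D := by
    intro v hv
    have h1 := (hPNB M T (nb G v ∩ U).card hM0 hTM).1
    have h2 : (D : ℝ) ≤ 4 * (nb G v ∩ U).card := by exact_mod_cast hlow v hv
    refine h1.trans ?_
    rw [div_le_div_iff₀ (by positivity) hD0]
    linarith
  -- the covariances
  have hc : ∀ v ∈ U, ∀ w ∈ U, |cv M G U T b v w| ≤
      (if w = v then 4 / (D : ℝ) else 0) + (if w ∈ nb G v ∩ U then 16 / (D : ℝ) ^ 2 else 0) +
        2048 / (D : ℝ) ^ 3 * ((nb G v ∩ nb G w ∩ U).card : ℝ) := by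
    intro v hv w hw
    have hx0 : 0 ≤ 2048 / (D : ℝ) ^ 3 * ((nb G v ∩ nb G w ∩ U).card : ℝ) := by positivity
    have hy0 : 0 ≤ (if w ∈ nb G v ∩ U then 16 / (D : ℝ) ^ 2 else 0) := by
      split_ifs <;> positivity
    have hz0 : 0 ≤ (if w = v then 4 / (D : ℝ) else 0) := by
      split_ifs <;> positivity
    have he := cv_eq hM0 G U T b v w (hp v hv) (hp w hw)
    by_cases hvw : w = v
    · subst hvw
      have h1 : ex (fun ω : Fin P × V → Fin M => X G U T b w ω * X G U T b w ω) =
          Pv G U M T w := by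
        simp only [X_sq]
        exact hp w hw
      rw [h1] at he
      rw [if_pos rfl]
      have h2 := hp0 w
      have h3 := hp1 w hw
      have h4 : 4 / (D : ℝ) ≤ 1 := by rw [div_le_one hD0]; exact hDr
      rw [he, abs_le]
      constructor
      · nlinarith
      · nlinarith
    · by_cases hadj : G.Adj v w
      · have h1 : ex (fun ω : Fin P × V → Fin M => X G U T b v ω * X G U T b w ω) = 0 := by
          simp only [X_adj G U T b v w hadj]
          simp [ex]
        rw [h1] at he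
        rw [if_neg hvw, if_pos (mem_inter.2 ⟨(mem_nb' G v w).2 hadj, hw⟩)]
        have h5 : Pv G U M T v * Pv G U M T w ≤ 4 / D * (4 / D) :=
          mul_le_mul (hp1 v hv) (hp1 w hw) (hp0 w) (by positivity)
        have h6 : 4 / (D : ℝ) * (4 / D) = 16 / (D : ℝ) ^ 2 := by field_simp; norm_num
        have h7 := mul_nonneg (hp0 v) (hp0 w)
        rw [he, abs_le]
        constructor <;> linarith
      · have h1 := hLOC2 P M T G U b v w hM0 hTM' hv hw (fun h => hvw h.symm) hadj
        have h2 : ex (fun ω : Fin P × V → Fin M => X G U T b v ω * X G U T b w ω) =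
            ex (fun ω : Fin P × V → Fin M =>
              if v ∈ loc G U T ω b ∧ w ∈ loc G U T ω b then (1 : ℝ) else 0) := by
          simp only [X_mul]
        set n1 := ((nb G v ∩ U) \ nb G w).card with hn1
        set n2 := ((nb G w ∩ U) \ nb G v).card with hn2
        set m := (nb G v ∩ nb G w ∩ U).card with hm
        have e1 : n1 + m = (nb G v ∩ U).card := by
          rw [hn1, hm, ← card_sdiff_add_card_inter (nb G v ∩ U) (nb G w)]
          congr 2
          ext z
          simp only [mem_inter]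
          tauto
        have e2 : n2 + m = (nb G w ∩ U).card := by
          rw [hn2, hm, ← card_sdiff_add_card_inter (nb G w ∩ U) (nb G v)]
          congr 2
          ext z
          simp only [mem_inter]
          tauto
        set n := min (nb G v ∩ U).card (nb G w ∩ U).card with hn
        have hv4 := hlow v hv
        have hw4 := hlow w hw
        have hn4 : D ≤ 4 * n := by omega
        have hn0 : 0 < n := by omega
        have hnM : n ≤ M := by
          have h8 := hdeg v
          have h9 : D ≤ M := by rw [hM]; exact Nat.le_mul_of_pos_right D hN1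
          omega
        have h3 := hCOVB M T n1 n2 m n hM0 hTM hn0 hnM (by rw [e1]; exact min_le_left _ _)
          (by rw [e2]; exact min_le_right _ _)
        rw [e1, e2] at h3
        have h10 : cv M G U T b v w = (∑ t ∈ range T, ∑ t' ∈ range T, 1 / (M : ℝ) ^ 2 *
            ((1 - ((t : ℝ) + 1) / M) ^ n1 * (1 - ((t' : ℝ) + 1) / M) ^ n2 *
              (1 - (((max t t' : ℕ) : ℝ) + 1) / M) ^ m)) -
            Pn M T (nb G v ∩ U).card * Pn M T (nb G w ∩ U).card := by
          rw [he, h2, h1]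
          rfl
        rw [if_neg hvw, if_neg (fun h => hadj ((mem_nb' G v w).1 (mem_inter.1 h).1)), h10,
          abs_of_nonneg h3.2]
        refine h3.1.trans ?_
        have h11 : (D : ℝ) ≤ 4 * n := by exact_mod_cast hn4
        have h12 : (D : ℝ) ^ 3 ≤ 64 * (n : ℝ) ^ 3 := by
          calc (D : ℝ) ^ 3 ≤ (4 * (n : ℝ)) ^ 3 := pow_le_pow_left₀ hD0.le h11 3
            _ = 64 * (n : ℝ) ^ 3 := by ring
        have hn0' : (0 : ℝ) < n := by exact_mod_cast hn0
        rw [zero_add, zero_add, div_mul_eq_mul_div, div_le_div_iff₀ (by positivity) (by positivity)]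
        have hm0 : (0 : ℝ) ≤ m := by positivity
        nlinarith [mul_le_mul_of_nonneg_left h12 hm0]
  -- the row sums
  have hrow : ∀ v ∈ U, ∑ w ∈ U, |cv M G U T b v w| ≤ 2100 / D := by
    intro v hv
    have h1 := sum_le_sum (fun w hw => hc v hv w hw)
    refine h1.trans ?_
    rw [sum_add_distrib, sum_add_distrib, ← mul_sum]
    have s1 : ∑ w ∈ U, (if w = v then 4 / (D : ℝ) else 0) = 4 / (D : ℝ) := by
      rw [sum_ite_eq' U v]
      simp [hv]
    have s2 : ∑ w ∈ U, (if w ∈ nb G v ∩ U then 16 / (D : ℝ) ^ 2 else 0) ≤ 16 / (D : ℝ) := by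
      rw [← sum_filter, sum_const, nsmul_eq_mul]
      have h2 : (U.filter fun w => w ∈ nb G v ∩ U).card ≤ D := by
        refine (card_le_card (t := nb G v ∩ U) fun w hw => (mem_filter.1 hw).2).trans ?_
        have := hdeg v
        omega
      have h3 : ((U.filter fun w => w ∈ nb G v ∩ U).card : ℝ) ≤ D := by exact_mod_cast h2
      calc ((U.filter fun w => w ∈ nb G v ∩ U).card : ℝ) * (16 / (D : ℝ) ^ 2) ≤
            D * (16 / (D : ℝ) ^ 2) := mul_le_mul_of_nonneg_right h3 (by positivity)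
        _ = 16 / D := by field_simp
    have s3 : ∑ w ∈ U, ((nb G v ∩ nb G w ∩ U).card : ℝ) ≤ (D : ℝ) * D := by
      exact_mod_cast sum_common G U D hdeg v
    have s4 : 2048 / (D : ℝ) ^ 3 * ∑ w ∈ U, ((nb G v ∩ nb G w ∩ U).card : ℝ) ≤ 2048 / D := by
      calc 2048 / (D : ℝ) ^ 3 * ∑ w ∈ U, ((nb G v ∩ nb G w ∩ U).card : ℝ) ≤
            2048 / (D : ℝ) ^ 3 * ((D : ℝ) * D) := mul_le_mul_of_nonneg_left s3 (by positivity)
        _ = 2048 / D := by field_simp
    have s5 : 4 / (D : ℝ) + 16 / D + 2048 / D ≤ 2100 / D := by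
      rw [← add_div, ← add_div]
      exact div_le_div_of_nonneg_right (by norm_num) hD0.le
    linarith
  -- the expansion
  have hexp : ex (fun ω : Fin P × V → Fin M => (∑ v ∈ loc G U T ω b, g v -
      ∑ v ∈ U, Pv G U M T v * g v) ^ 2) = ∑ v ∈ U, ∑ w ∈ U, g v * g w * cv M G U T b v w := by
    have h1 : (fun ω : Fin P × V → Fin M => (∑ v ∈ loc G U T ω b, g v -
        ∑ v ∈ U, Pv G U M T v * g v) ^ 2) = fun ω => ∑ v ∈ U, ∑ w ∈ U,
          g v * g w * ((X G U T b v ω - Pv G U M T v) * (X G U T b w ω - Pv G U M T w)) := by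
      funext ω
      have h2 : ∑ v ∈ loc G U T ω b, g v = ∑ v ∈ U, X G U T b v ω * g v := by
        rw [← sum_subset (loc_sub G U T ω b) (f := fun v => X G U T b v ω * g v)]
        · refine sum_congr rfl fun v hv => ?_
          simp [X, hv]
        · intro v _ hv
          simp [X, hv]
      rw [h2, ← sum_sub_distrib, sq, sum_mul_sum]
      refine sum_congr rfl fun v _ => sum_congr rfl fun w _ => ?_
      ring
    rw [h1, ex_sum]
    refine sum_congr rfl fun v _ => ?_
    rw [ex_sum]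
    refine sum_congr rfl fun w _ => ?_
    rw [ex_const_mul]
    rfl
  rw [hexp]
  have hb : ∀ v ∈ U, ∀ w ∈ U, g v * g w * cv M G U T b v w ≤
      (g v ^ 2 * |cv M G U T b v w| + g w ^ 2 * |cv M G U T b w v|) / 2 := by
    intro v _ w _
    rw [cv_comm G U T b w v]
    have h1 : g v * g w * cv M G U T b v w ≤ |g v * g w| * |cv M G U T b v w| := by
      rw [← abs_mul]; exact le_abs_self _
    have h2 : |g v * g w| ≤ (g v ^ 2 + g w ^ 2) / 2 := by
      rw [abs_le]
      constructor <;> nlinarith [sq_nonneg (g v + g w), sq_nonneg (g v - g w)]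
    have h3 := mul_le_mul_of_nonneg_right h2 (abs_nonneg (cv M G U T b v w))
    nlinarith
  have h1 : ∑ v ∈ U, ∑ w ∈ U, g v * g w * cv M G U T b v w ≤
      ∑ v ∈ U, ∑ w ∈ U, (g v ^ 2 * |cv M G U T b v w| + g w ^ 2 * |cv M G U T b w v|) / 2 :=
    sum_le_sum fun v hv => sum_le_sum fun w hw => hb v hv w hw
  have h2 : ∑ v ∈ U, ∑ w ∈ U, (g v ^ 2 * |cv M G U T b v w| + g w ^ 2 * |cv M G U T b w v|) / 2 =
      ∑ v ∈ U, g v ^ 2 * ∑ w ∈ U, |cv M G U T b v w| := by
    have e1 : ∀ v ∈ U, ∑ w ∈ U, (g v ^ 2 * |cv M G U T b v w| + g w ^ 2 * |cv M G U T b w v|) / 2 =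
        (∑ w ∈ U, g v ^ 2 * |cv M G U T b v w|) / 2 +
          (∑ w ∈ U, g w ^ 2 * |cv M G U T b w v|) / 2 := by
      intro v _
      rw [← sum_div, sum_add_distrib, add_div]
    rw [sum_congr rfl e1, sum_add_distrib, ← sum_div, ← sum_div]
    have e2 : ∑ v ∈ U, ∑ w ∈ U, g w ^ 2 * |cv M G U T b w v| =
        ∑ v ∈ U, ∑ w ∈ U, g v ^ 2 * |cv M G U T b v w| := sum_comm
    rw [e2, add_halves]
    refine sum_congr rfl fun v _ => ?_
    rw [mul_sum]
  rw [h2] at h1
  refine h1.trans ?_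
  rw [mul_sum]
  refine sum_le_sum fun v hv => ?_
  rw [mul_comm]
  exact mul_le_mul_of_nonneg_right (hrow v hv) (sq_nonneg _)

end Pool.Agent.Work.MP_db9399_ow.helper12
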